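import Pool.Agent.H14.RG.OUT

/-!
# Closed submanifolds and harmonic maps (MP_2697e3_an): the second fundamental form exists
-/

set_option autoImplicit false

namespace Pool.Agent.H14.RG

open MeasureTheory Metric Set Filter Topology Pool.Agent.H87.SN
open scoped ContDiff RealInnerProductSpace

/-- `B` is the second fundamental form at the point `q`, composed with the projection `P` onto the
tangent space. -/
private structure Sec {m : ℕ} (N : Set (E m)) (P : E m →L[ℝ] E m) (q : E m)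
    (B : E m →L[ℝ] E m →L[ℝ] E m) : Prop where
  sym : ∀ v w, B v w = B w v
  proj : ∀ v w, B v w = B (P v) (P w)
  nor : ∀ v w τ, IsTangent N q τ → ⟪B v w, τ⟫ = 0
  curve : ∀ γ : ℝ → E m, ContDiffAt ℝ 2 γ 0 → (∀ᶠ s in 𝓝 (0 : ℝ), γ s ∈ N) → γ 0 = q →
    ∀ ν : E m, (∀ τ : E m, IsTangent N q τ → ⟪ν, τ⟫ = 0) →
      ⟪deriv (deriv γ) 0 + B (deriv γ 0) (deriv γ 0), ν⟫ = 0

private theorem sec_unique {m : ℕ} {N : Set (E m)} {P : E m →L[ℝ] E m} {q : E m}
    {B B' : E m →L[ℝ] E m →L[ℝ] E m} (hP : ∀ v, IsTangent N q (P v)) (h : Sec N P q B)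
    (h' : Sec N P q B') : B = B' := by
  have h1 : ∀ v, IsTangent N q v → B v v = B' v v := by
    rintro v ⟨γ, g1, g2, g3, g4⟩
    have hn : ∀ τ : E m, IsTangent N q τ → ⟪B v v - B' v v, τ⟫ = 0 := by
      intro τ hτ
      rw [inner_sub_left, h.nor v v τ hτ, h'.nor v v τ hτ, sub_zero]
    have e1 := h.curve γ g1 g2 g3 _ hn
    have e2 := h'.curve γ g1 g2 g3 _ hn
    rw [g4] at e1 e2
    have e3 : ⟪B v v - B' v v, B v v - B' v v⟫ = 0 := by
      have e4 : ⟪(deriv (deriv γ) 0 + B v v) - (deriv (deriv γ) 0 + B' v v),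
          B v v - B' v v⟫ = 0 := by
        rw [inner_sub_left, e1, e2, sub_zero]
      rwa [add_sub_add_left_eq_sub] at e4
    exact sub_eq_zero.1 (inner_self_eq_zero.1 e3)
  have h2 : ∀ v, B v v = B' v v := fun v => by
    rw [h.proj, h'.proj]
    exact h1 _ (hP v)
  ext1 v
  ext1 w
  have e1 := h2 (v + w)
  have e2 := h2 v
  have e3 := h2 w
  have e4 := h.sym w v
  have e5 := h'.sym w v
  simp only [map_add, add_apply] at e1
  rw [e2, e3, e4, e5] at e1
  have e6 : (2 : ℝ) • B v w = (2 : ℝ) • B' v w := by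
    rw [two_smul, two_smul]
    have e7 : B v w + B v w = (B' v v + B v w + (B v w + B' w w)) - B' v v - B' w w := by abel
    rw [e7, e1]
    abel
  exact smul_right_injective _ (two_ne_zero) e6

/-- the second fundamental form in terms of a defining function -/
private noncomputable def loc {m c : ℕ} (F : E m → E c) (R : E m → E c →L[ℝ] E m)
    (T : E m → E m →L[ℝ] E m) (q : E m) : E m →L[ℝ] E m →L[ℝ] E m :=
  ((ContinuousLinearMap.compL ℝ (E m) (E c) (E m) (R q)).comp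
    (fderiv ℝ (fderiv ℝ F) q)).bilinearComp (T q) (T q)

private theorem loc_apply {m c : ℕ} (F : E m → E c) (R : E m → E c →L[ℝ] E m)
    (T : E m → E m →L[ℝ] E m) (q v w : E m) :
    loc F R T q v w = R q (fderiv ℝ (fderiv ℝ F) q (T q v) (T q w)) := rfl

private theorem loc_sec {m c : ℕ} {N U : Set (E m)} {F : E m → E c} (hL : LocDef N U F)
    {R : E m → E c →L[ℝ] E m}
    (hR : ∀ q ∈ U, (∀ y, fderiv ℝ F q (R q y) = y) ∧
        ∀ y v, fderiv ℝ F q v = 0 → ⟪R q y, v⟫ = 0)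
    {T : E m → E m →L[ℝ] E m} (hT : TanProj N T) {q : E m} (hqN : q ∈ N) (hqU : q ∈ U) :
    Sec N (T q) q (loc F R T q) := by
  obtain ⟨r1, r2⟩ := hR q hqU
  have hsm : ContDiffAt ℝ ∞ F q := (hL.smooth q hqU).contDiffAt (hL.isOpen.mem_nhds hqU)
  have hsym : ∀ v w, fderiv ℝ (fderiv ℝ F) q v w = fderiv ℝ (fderiv ℝ F) q w v := by
    have h2 : (2 : WithTop ℕ∞) ≤ ∞ :=
      show ((2 : ℕ∞) : WithTop ℕ∞) ≤ ((⊤ : ℕ∞) : WithTop ℕ∞) from WithTop.coe_le_coe.2 le_top
    have h := hsm.isSymmSndFDerivAt (by simpa using h2)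
    exact fun v w => h.eq v w
  refine ⟨fun v w => ?_, fun v w => ?_, fun v w τ hτ => ?_, fun γ g1 g2 g3 ν hν => ?_⟩
  · rw [loc_apply, loc_apply, hsym]
  · rw [loc_apply, loc_apply, hT.fix q hqN _ (hT.mem q hqN v), hT.fix q hqN _ (hT.mem q hqN w)]
  · rw [loc_apply]
    exact r2 _ τ (tae m c N U F hL q hqU τ hτ)
  · have hv : IsTangent N q (deriv γ 0) := ⟨γ, g1, g2, g3, rfl⟩
    rw [loc_apply, hT.fix q hqN _ hv]
    have hs := Pool.Agent.H66.RG.sfs_second hL g1 g2 (by rw [g3]; exact hqU)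
    rw [g3] at hs
    rw [real_inner_comm]
    refine hν _ (tak m c N U F hL q hqN hqU _ ?_)
    rw [map_add, r1, add_comm]
    exact hs

private theorem loc_cont {m c : ℕ} {N U : Set (E m)} {F : E m → E c} (hL : LocDef N U F)
    {R : E m → E c →L[ℝ] E m} (hR : ContDiffOn ℝ ∞ R U) {T : E m → E m →L[ℝ] E m}
    (hT : TanProj N T) : ContinuousOn (loc F R T) (N ∩ U) := by
  have h1 : ContinuousOn R (N ∩ U) := hR.continuousOn.mono inter_subset_right
  have h2 : ContinuousOn T (N ∩ U) := hT.cont.mono inter_subset_left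
  have hF1 : ContDiffOn ℝ ∞ (fderiv ℝ F) U := hL.smooth.fderiv_of_isOpen hL.isOpen (by simp)
  have h3 : ContinuousOn (fderiv ℝ (fderiv ℝ F)) (N ∩ U) :=
    (hF1.fderiv_of_isOpen hL.isOpen (m := ∞) (by simp)).continuousOn.mono inter_subset_right
  have h4 : ContinuousOn (fun q => (ContinuousLinearMap.compL ℝ (E m) (E c) (E m) (R q)).comp
      (fderiv ℝ (fderiv ℝ F) q)) (N ∩ U) :=
    ((ContinuousLinearMap.compL ℝ (E m) (E c) (E m)).continuous.comp_continuousOn h1).clm_comp h3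
  have h5 : ContinuousOn (fun q => (((ContinuousLinearMap.compL ℝ (E m) (E c) (E m) (R q)).comp
      (fderiv ℝ (fderiv ℝ F) q)).comp (T q)).flip) (N ∩ U) :=
    (ContinuousLinearMap.flipₗᵢ ℝ (E m) (E m) (E m)).continuous.comp_continuousOn
      (h4.clm_comp h2)
  exact (ContinuousLinearMap.flipₗᵢ ℝ (E m) (E m) (E m)).continuous.comp_continuousOn
    (h5.clm_comp h2)

/-- Closed submanifolds have a second fundamental form. -/
theorem aex (m k : ℕ) (N : Set (E m)) (hN : IsClosedSubmanifold k N) :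
    ∃ A : E m → E m →L[ℝ] E m →L[ℝ] E m, IsSFF N A ∧ ∀ q v w, A q v w = A q w v := by
  obtain ⟨T, hT⟩ := tpr m k N hN
  have hex : ∀ q : E m, ∃ B : E m →L[ℝ] E m →L[ℝ] E m, (q ∈ N → Sec N (T q) q B) ∧
      ∀ v w, B v w = B w v := by
    intro q
    by_cases hq : q ∈ N
    · obtain ⟨c, U, F, -, hqU, hL⟩ := hN.loc q hq
      obtain ⟨R, -, hR⟩ := rin m c U F hL.isOpen hL.smooth hL.surj
      have h := loc_sec hL hR hT hq hqU
      exact ⟨loc F R T q, fun _ => h, h.sym⟩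
    · exact ⟨0, fun h => (hq h).elim, fun _ _ => rfl⟩
  choose A hA hsym using hex
  refine ⟨A, ⟨?_, ?_, ?_⟩, hsym⟩
  · intro p hp
    obtain ⟨c, U, F, -, hpU, hL⟩ := hN.loc p hp
    obtain ⟨R, hR1, hR⟩ := rin m c U F hL.isOpen hL.smooth hL.surj
    have h1 : ∀ q ∈ N ∩ U, A q = loc F R T q := fun q hq =>
      sec_unique (hT.mem q hq.1) (hA q hq.1) (loc_sec hL hR hT hq.1 hq.2)
    have h2 : ContinuousWithinAt A (N ∩ U) p :=
      (loc_cont hL hR1 hT p ⟨hp, hpU⟩).congr h1 (h1 p ⟨hp, hpU⟩)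
    exact h2.mono_of_mem_nhdsWithin (inter_mem_nhdsWithin N (hL.isOpen.mem_nhds hpU))
  · intro q hq v w τ _ _ hτ
    exact (hA q hq).nor v w τ hτ
  · intro γ g1 g2 ν hν
    have hq : γ 0 ∈ N := g2.self_of_nhds
    exact (hA (γ 0) hq).curve γ g1 g2 rfl ν hν

end Pool.Agent.H14.RG
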