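import Pool.Agent.H87.SN.Defs
import Pool.Agent.H92.Hartogs.L2b

/-!
# Mollification of functions with weak derivatives (MP_2697e3_an)
-/

set_option autoImplicit false

namespace Pool.Agent.H14.RG

open MeasureTheory Metric Set Filter Topology Pool.Agent.H87.SN Pool.Agent.H92
open scoped ContDiff ENNReal

variable {n : ℕ} {H : Type*} [NormedAddCommGroup H] [NormedSpace ℝ H] [CompleteSpace H]

/-- `G` is the weak derivative of `u` on `U`. -/
def WDer (U : Set (E n)) (u : E n → H) (G : E n → E n →L[ℝ] H) : Prop :=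
  ∀ φ : E n → ℝ, ContDiff ℝ ∞ φ → HasCompactSupport φ → tsupport φ ⊆ U → ∀ v : E n,
    ∫ x, (fderiv ℝ φ x v) • u x = -∫ x, φ x • G x v

theorem memLp_ind {α : Type*} [MeasurableSpace α] {μ : Measure α} {s : Set α}
    (hs : MeasurableSet s) {H' : Type*} [NormedAddCommGroup H'] {f : α → H'} {p : ℝ≥0∞}
    (h : MemLp f p (μ.restrict s)) : MemLp (s.indicator f) p μ :=
  (memLp_indicator_iff_restrict hs).2 h

omit [CompleteSpace H] in
theorem zero_of_notMem_tsupport {φ : E n → ℝ} {x : E n} (hx : x ∉ tsupport φ) : φ x = 0 :=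
  image_eq_zero_of_notMem_tsupport hx

theorem fderiv_zero_of_notMem_tsupport {F : Type*} [NormedAddCommGroup F] [NormedSpace ℝ F]
    {φ : E n → F} {x : E n} (hx : x ∉ tsupport φ) : fderiv ℝ φ x = 0 :=
  image_eq_zero_of_notMem_tsupport fun h => hx (tsupport_fderiv_subset ℝ h)

omit [CompleteSpace H] in
/-- zero extension -/
theorem WDer.indicator {U : Set (E n)} {u : E n → H} {G : E n → E n →L[ℝ] H} (h : WDer U u G) :
    WDer U (U.indicator u) (U.indicator G) := by
  intro φ hφ hc hs v
  have h1 : (fun x => (fderiv ℝ φ x v) • U.indicator u x) = fun x => (fderiv ℝ φ x v) • u x := by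
    funext x
    by_cases hx : x ∈ U
    · rw [indicator_of_mem hx]
    · have hx' : x ∉ tsupport φ := fun h' => hx (hs h')
      rw [fderiv_zero_of_notMem_tsupport hx']
      simp
  have h2 : (fun x => φ x • U.indicator G x v) = fun x => φ x • G x v := by
    funext x
    by_cases hx : x ∈ U
    · rw [indicator_of_mem hx]
    · have hx' : x ∉ tsupport φ := fun h' => hx (hs h')
      rw [image_eq_zero_of_notMem_tsupport hx']
      simp
  rw [h1, h2]
  exact h φ hφ hc hs v

/-- the derivative of the mollified function -/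
theorem fderiv_mol_weak {U : Set (E n)} {u : E n → H} {G : E n → E n →L[ℝ] H} (h : WDer U u G)
    (hu : LocallyIntegrable u volume) (hG : LocallyIntegrable G volume) {ρ : E n → ℝ}
    (hρ : ContDiff ℝ ∞ ρ) (hc : HasCompactSupport ρ) {x : E n}
    (hx : ∀ t, x - t ∈ tsupport ρ → t ∈ U) : fderiv ℝ (mol ρ u) x = mol ρ G x := by
  ext v
  have hφ : ContDiff ℝ ∞ fun t => ρ (x - t) := hρ.comp (contDiff_const.sub contDiff_id)
  have hφc : HasCompactSupport fun t => ρ (x - t) := hc.comp_homeomorph (Homeomorph.subLeft x)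
  have hφs : tsupport (fun t => ρ (x - t)) ⊆ U := by
    intro t ht
    refine hx t ?_
    have h1 : tsupport (fun t => ρ (x - t)) = (fun t => x - t) ⁻¹' tsupport ρ :=
      (tsupport_comp_eq_preimage ρ (Homeomorph.subLeft x))
    rw [h1] at ht
    exact ht
  have h1 := h _ hφ hφc hφs v
  have h2 : ∀ t, fderiv ℝ (fun t => ρ (x - t)) t v = -fderiv ℝ ρ (x - t) v := by
    intro t
    have : HasFDerivAt (fun t => ρ (x - t)) ((fderiv ℝ ρ (x - t)) ∘L
        (-(ContinuousLinearMap.id ℝ (E n)))) t :=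
      ((hρ.differentiable (by simp) _).hasFDerivAt).comp t
        ((hasFDerivAt_id t).const_sub x)
    rw [this.fderiv]
    simp
  rw [fderiv_mol hρ hc hu]
  have h3 : ∫ t, (fderiv ℝ ρ (x - t) v) • u t =
      -∫ t, (fderiv ℝ (fun t => ρ (x - t)) t v) • u t := by
    rw [← integral_neg]
    refine integral_congr_ae (Eventually.of_forall fun t => ?_)
    change _ = -((fderiv ℝ (fun t => ρ (x - t)) t v) • u t)
    rw [h2, neg_smul, neg_neg]
  rw [h3, h1, neg_neg, mol_eq]
  have h4 : Integrable fun t => ρ (x - t) • G t :=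
    hG.integrable_smul_left_of_hasCompactSupport hφ.continuous hφc
  rw [ContinuousLinearMap.integral_apply h4]
  rfl

/-- eventually, the derivative of the mollified function is the mollified weak derivative -/
theorem eventually_fderiv_mol {U : Set (E n)} {u : E n → H} {G : E n → E n →L[ℝ] H}
    (h : WDer U u G) (hu : LocallyIntegrable u volume) (hG : LocallyIntegrable G volume)
    {K : Set (E n)} (hK : IsCompact K) (hU : IsOpen U) (hKU : K ⊆ U) :
    ∀ᶠ k in atTop, ∀ x ∈ K, fderiv ℝ (mol (rh n k) u) x = mol (rh n k) G x := by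
  obtain ⟨δ, hδ, hδK⟩ := hK.exists_cthickening_subset_open hU hKU
  have hlim : Tendsto (fun k : ℕ => 1 / ((k : ℝ) + 1)) atTop (𝓝 0) :=
    tendsto_one_div_add_atTop_nhds_zero_nat
  filter_upwards [hlim.eventually (gt_mem_nhds hδ)] with k hk x hx
  refine fderiv_mol_weak h hu hG (rh_smooth k) (rh_cpt k) fun t ht => hδK ?_
  rw [rh_tsupport, mem_closedBall_zero_iff] at ht
  refine mem_cthickening_of_dist_le t x δ K hx ?_
  rw [dist_comm, dist_eq_norm]
  exact ht.trans hk.le

omit [NormedSpace ℝ H] [CompleteSpace H] in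
/-- the Cauchy-Schwarz inequality and limits -/
theorem tendsto_integral_zero {w : E n → ℝ} (hw : MemLp w 2 volume) {a : ℕ → E n → ℝ}
    {d : ℕ → E n → H} (hd : Tendsto (fun k => eLpNorm (d k) 2 volume) atTop (𝓝 0))
    (hdm : ∀ᶠ k in atTop, AEStronglyMeasurable (d k) volume)
    (hb : ∀ᶠ k in atTop, ∀ x, ‖a k x‖ ≤ ‖w x‖ * ‖d k x‖) :
    Tendsto (fun k => ∫ x, a k x) atTop (𝓝 0) := by
  rw [tendsto_zero_iff_norm_tendsto_zero]
  have h0 : Tendsto (fun k => eLpNorm w 2 volume * eLpNorm (d k) 2 volume) atTop (𝓝 0) := by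
    have := ENNReal.Tendsto.const_mul hd (Or.inr hw.2.ne) (a := eLpNorm w 2 volume)
    rwa [mul_zero] at this
  have h1 : Tendsto (fun k => ‖∫ x, a k x‖ₑ) atTop (𝓝 0) := by
    refine tendsto_of_tendsto_of_tendsto_of_le_of_le' tendsto_const_nhds h0
      (Eventually.of_forall fun k => zero_le) ?_
    filter_upwards [hdm, hb] with k hk hbk
    calc ‖∫ x, a k x‖ₑ ≤ ∫⁻ x, ‖a k x‖ₑ := enorm_integral_le_lintegral_enorm _
      _ ≤ ∫⁻ x, ‖w x‖ₑ * ‖d k x‖ₑ := by
          refine lintegral_mono fun x => ?_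
          have := hbk x
          rw [← ofReal_norm, ← ofReal_norm, ← ofReal_norm,
            ← ENNReal.ofReal_mul (norm_nonneg _)]
          exact ENNReal.ofReal_le_ofReal this
      _ ≤ eLpNorm w 2 volume * eLpNorm (d k) 2 volume := by
          have h := ENNReal.lintegral_mul_le_Lp_mul_Lq (μ := (volume : Measure (E n)))
            Real.HolderConjugate.two_two hw.1.enorm hk.enorm
          rw [eLpNorm_eq_lintegral_rpow_enorm_toReal (by norm_num) (by norm_num),
            eLpNorm_eq_lintegral_rpow_enorm_toReal (by norm_num) (by norm_num)]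
          simpa using h
  have h2 : (fun k => ‖∫ x, a k x‖) = fun k => (‖∫ x, a k x‖ₑ).toReal := by
    funext k
    rw [toReal_enorm]
  have h3 := (ENNReal.tendsto_toReal ENNReal.zero_ne_top).comp h1
  rw [ENNReal.toReal_zero] at h3
  rw [h2]
  exact h3

/-- the mollified functions and their derivatives converge -/
theorem tendsto_mol_pair {H' : Type*} [NormedAddCommGroup H'] [NormedSpace ℝ H']
    [CompleteSpace H'] {u : E n → H} {G : E n → H'} (hu : MemLp u 2 volume)
    (hG : MemLp G 2 volume) :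
    Tendsto (fun k => eLpNorm (fun x => ‖mol (rh n k) u x - u x‖ + ‖mol (rh n k) G x - G x‖) 2
      volume) atTop (𝓝 0) ∧
    ∀ k, AEStronglyMeasurable (fun x => ‖mol (rh n k) u x - u x‖ + ‖mol (rh n k) G x - G x‖)
      volume := by
  have hm1 : ∀ k, AEStronglyMeasurable (fun x => ‖mol (rh n k) u x - u x‖) volume := fun k =>
    ((aesm_mol (hu.locallyIntegrable (by norm_num)) k).sub hu.1).norm
  have hm2 : ∀ k, AEStronglyMeasurable (fun x => ‖mol (rh n k) G x - G x‖) volume := fun k =>
    ((aesm_mol (hG.locallyIntegrable (by norm_num)) k).sub hG.1).norm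
  refine ⟨?_, fun k => (hm1 k).add (hm2 k)⟩
  have h0 := (mol_tendsto hu).add (mol_tendsto hG)
  rw [add_zero] at h0
  refine tendsto_of_tendsto_of_tendsto_of_le_of_le tendsto_const_nhds h0
    (fun k => zero_le) fun k => ?_
  refine (eLpNorm_add_le (hm1 k) (hm2 k) (by norm_num)).trans ?_
  rw [eLpNorm_norm, eLpNorm_norm]

end Pool.Agent.H14.RG
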