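import Pool.Agent.H14.RG.Targets
import Pool.Agent.H14.RG.Moll

/-!
# Closed submanifolds and harmonic maps (MP_2697e3_an), row CHN: the chain rule
-/

set_option autoImplicit false

namespace Pool.Agent.H14.RG

open MeasureTheory Metric Set Filter Topology Pool.Agent.H87.SN Pool.Agent.H92
open scoped ContDiff ENNReal NNReal

theorem wder_of {n m : ℕ} {u : E n → E m} {G : E n → E n →L[ℝ] E m} (h : IsW12 u G) :
    WDer (ball 0 2) u G := fun φ h1 h2 h3 v => h.weak φ ⟨h1, h2, h3⟩ v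

/-- the pointwise estimate -/
private theorem ptw {a b c : ℝ} {X Y : Type*} [NormedAddCommGroup X] [NormedSpace ℝ X]
    [NormedAddCommGroup Y] [NormedSpace ℝ Y] {g : X → ℝ} {L L' Φ : ℝ} (hL : 0 ≤ L) (hL' : 0 ≤ L')
    (hb : |b| ≤ Φ) (p q : X) (P Q : Y →L[ℝ] X) (v : Y) (h1 : |g p - g q| ≤ L * ‖p - q‖)
    (h2 : ‖fderiv ℝ g p‖ ≤ L) (h3 : ‖fderiv ℝ g p - fderiv ℝ g q‖ ≤ L' * ‖p - q‖)
    (hc : c = (a * g p + b * fderiv ℝ g p (P v)) - (a * g q + b * fderiv ℝ g q (Q v))) :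
    ‖c‖ ≤ ‖L * |a| + L * ‖v‖ * |b| + L' * ‖v‖ * Φ * ‖Q‖‖ * ‖‖p - q‖ + ‖P - Q‖‖ := by
  have hΦ : 0 ≤ Φ := (abs_nonneg b).trans hb
  have e1 : c = a * (g p - g q) + b * (fderiv ℝ g p ((P - Q) v)) +
      b * ((fderiv ℝ g p - fderiv ℝ g q) (Q v)) := by
    have e2 : (P - Q) v = P v - Q v := rfl
    have e3 : (fderiv ℝ g p - fderiv ℝ g q) (Q v) = fderiv ℝ g p (Q v) - fderiv ℝ g q (Q v) := rfl
    rw [hc, e2, e3, map_sub]
    ring
  have n1 := norm_nonneg (p - q)
  have n2 := norm_nonneg (P - Q)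
  have n3 := norm_nonneg v
  have n4 := norm_nonneg Q
  have b1 : |a * (g p - g q)| ≤ L * |a| * ‖p - q‖ := by
    rw [abs_mul]
    calc |a| * |g p - g q| ≤ |a| * (L * ‖p - q‖) := by gcongr
      _ = _ := by ring
  have b2 : |b * (fderiv ℝ g p ((P - Q) v))| ≤ L * ‖v‖ * |b| * ‖P - Q‖ := by
    rw [abs_mul]
    have : |fderiv ℝ g p ((P - Q) v)| ≤ L * (‖P - Q‖ * ‖v‖) := by
      refine ((fderiv ℝ g p).le_opNorm _).trans ?_
      exact mul_le_mul h2 ((P - Q).le_opNorm v) (norm_nonneg _) hL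
    calc |b| * |fderiv ℝ g p ((P - Q) v)| ≤ |b| * (L * (‖P - Q‖ * ‖v‖)) := by gcongr
      _ = _ := by ring
  have b3 : |b * ((fderiv ℝ g p - fderiv ℝ g q) (Q v))| ≤ L' * ‖v‖ * Φ * ‖Q‖ * ‖p - q‖ := by
    rw [abs_mul]
    have : |(fderiv ℝ g p - fderiv ℝ g q) (Q v)| ≤ L' * ‖p - q‖ * (‖Q‖ * ‖v‖) := by
      refine ((fderiv ℝ g p - fderiv ℝ g q).le_opNorm _).trans ?_
      exact mul_le_mul h3 (Q.le_opNorm v) (norm_nonneg _) (by positivity)
    calc |b| * |(fderiv ℝ g p - fderiv ℝ g q) (Q v)| ≤ Φ * (L' * ‖p - q‖ * (‖Q‖ * ‖v‖)) := by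
          gcongr
      _ = _ := by ring
  have hw : 0 ≤ L * |a| + L * ‖v‖ * |b| + L' * ‖v‖ * Φ * ‖Q‖ := by positivity
  have hd : 0 ≤ ‖p - q‖ + ‖P - Q‖ := by positivity
  rw [Real.norm_of_nonneg hw, Real.norm_of_nonneg hd, Real.norm_eq_abs, e1]
  refine (abs_add_le _ _).trans ?_
  refine (add_le_add ((abs_add_le _ _).trans (add_le_add b1 b2)) b3).trans ?_
  have c1 : 0 ≤ L * |a| * ‖P - Q‖ := by positivity
  have c2 : 0 ≤ L * ‖v‖ * |b| * ‖p - q‖ := by positivity
  have c3 : 0 ≤ L' * ‖v‖ * Φ * ‖Q‖ * ‖P - Q‖ := by positivity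
  have e4 : (L * |a| + L * ‖v‖ * |b| + L' * ‖v‖ * Φ * ‖Q‖) * (‖p - q‖ + ‖P - Q‖) =
      L * |a| * ‖p - q‖ + L * ‖v‖ * |b| * ‖P - Q‖ + L' * ‖v‖ * Φ * ‖Q‖ * ‖p - q‖ +
      (L * |a| * ‖P - Q‖ + L * ‖v‖ * |b| * ‖p - q‖ + L' * ‖v‖ * Φ * ‖Q‖ * ‖P - Q‖) := by ring
  rw [e4]
  exact le_add_of_nonneg_right (add_nonneg (add_nonneg c1 c2) c3)

/-- the chain rule for functions with a weak derivative in `L^2` -/
theorem chain {n : ℕ} {H : Type*} [NormedAddCommGroup H] [NormedSpace ℝ H] [CompleteSpace H]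
    {U : Set (E n)} (hU : IsOpen U) {u : E n → H}
    {G : E n → E n →L[ℝ] H} (hW : WDer U u G) (hu : MemLp u 2 volume) (hG : MemLp G 2 volume)
    {g : H → ℝ} (hg : ContDiff ℝ ∞ g) (hgc : HasCompactSupport g) {φ : E n → ℝ}
    (hφ : ContDiff ℝ ∞ φ) (hφc : HasCompactSupport φ) (hφU : tsupport φ ⊆ U) (v : E n) :
    ∫ x, fderiv ℝ φ x v * g (u x) = -∫ x, φ x * fderiv ℝ g (u x) (G x v) := by
  have huL := hu.locallyIntegrable (by norm_num)
  have hGL := hG.locallyIntegrable (by norm_num)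
  obtain ⟨L, hL⟩ := hg.lipschitzWith_of_hasCompactSupport hgc (by simp)
  have hg' : ContDiff ℝ ∞ (fderiv ℝ g) := hg.fderiv_right (by simp)
  obtain ⟨L', hL'⟩ := hg'.lipschitzWith_of_hasCompactSupport (hgc.fderiv ℝ) (by simp)
  have hDg : ∀ p, ‖fderiv ℝ g p‖ ≤ L := fun p => norm_fderiv_le_of_lipschitz ℝ hL
  have hgL : ∀ p q, |g p - g q| ≤ L * ‖p - q‖ := fun p q => by
    have := hL.dist_le_mul p q
    rwa [dist_eq_norm, dist_eq_norm] at this
  have hgL' : ∀ p q, ‖fderiv ℝ g p - fderiv ℝ g q‖ ≤ L' * ‖p - q‖ := fun p q => by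
    have := hL'.dist_le_mul p q
    rwa [dist_eq_norm, dist_eq_norm] at this
  have hφ' : Continuous fun x => fderiv ℝ φ x v :=
    (hφ.continuous_fderiv (by simp)).clm_apply continuous_const
  have hφ'c : HasCompactSupport fun x => fderiv ℝ φ x v :=
    (hφc.fderiv ℝ).comp_left (g := fun A : E n →L[ℝ] ℝ => A v) rfl
  obtain ⟨Φ, hΦ⟩ : ∃ Φ : ℝ, ∀ x, |φ x| ≤ Φ :=
    hφc.exists_bound_of_continuous hφ.continuous
  obtain ⟨Γ, hΓ⟩ : ∃ Γ : ℝ, ∀ x, |g x| ≤ Γ := hgc.exists_bound_of_continuous hg.continuous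
  have hwm : MemLp (fun x => L * |fderiv ℝ φ x v| + L * ‖v‖ * |φ x| + L' * ‖v‖ * Φ * ‖G x‖) 2
      volume := by
    refine MemLp.add (MemLp.add ?_ ?_) ?_
    · exact (hφ'.memLp_of_hasCompactSupport hφ'c).abs.const_mul _
    · exact (hφ.continuous.memLp_of_hasCompactSupport hφc).abs.const_mul _
    · exact hG.norm.const_mul _
  obtain ⟨ht1, ht2⟩ := tendsto_mol_pair hu hG
  -- the limit
  have hlim := tendsto_integral_zero hwm (a := fun k x =>
    (fderiv ℝ φ x v * g (mol (rh n k) u x) +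
      φ x * fderiv ℝ g (mol (rh n k) u x) (mol (rh n k) G x v)) -
    (fderiv ℝ φ x v * g (u x) + φ x * fderiv ℝ g (u x) (G x v))) ht1
    (Eventually.of_forall ht2) (Eventually.of_forall fun k x =>
      ptw L.2 L'.2 (hΦ x) _ _ _ _ v (hgL _ _) (hDg _) (hgL' _ _) rfl)
  -- integrability
  have hI1 : Integrable fun x => fderiv ℝ φ x v * g (u x) := by
    refine (hφ'.integrable_of_hasCompactSupport hφ'c).mul_bdd
      (hg.continuous.comp_aestronglyMeasurable hu.1) (c := Γ)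
      (Eventually.of_forall fun x => hΓ _)
  have hI2 : Integrable fun x => φ x * fderiv ℝ g (u x) (G x v) := by
    have h1 : MemLp (fun x => fderiv ℝ g (u x) (G x v)) 2 volume := by
      have hm : AEStronglyMeasurable (fun x => fderiv ℝ g (u x) (G x v)) volume :=
        (isBoundedBilinearMap_apply (𝕜 := ℝ) (E := H) (F := ℝ)).continuous.comp_aestronglyMeasurable
          ((hg'.continuous.comp_aestronglyMeasurable hu.1).prodMk
            (hG.1.apply_continuousLinearMap v))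
      refine hG.of_le_mul (c := L * ‖v‖) hm (Eventually.of_forall fun x => ?_)
      calc ‖fderiv ℝ g (u x) (G x v)‖ ≤ ‖fderiv ℝ g (u x)‖ * ‖G x v‖ :=
            (fderiv ℝ g (u x)).le_opNorm _
        _ ≤ L * (‖G x‖ * ‖v‖) := mul_le_mul (hDg _) ((G x).le_opNorm v) (norm_nonneg _) L.2
        _ = _ := by ring
    exact (h1.locallyIntegrable (by norm_num)).integrable_smul_left_of_hasCompactSupport
      hφ.continuous hφc
  have hsm : ∀ k, ContDiff ℝ ∞ (mol (rh n k) u) := fun k =>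
    contDiff_mol (rh_smooth k) (rh_cpt k) huL
  have hsG : ∀ k, ContDiff ℝ ∞ (mol (rh n k) G) := fun k =>
    contDiff_mol (rh_smooth k) (rh_cpt k) hGL
  have hJ1 : ∀ k, Integrable fun x => fderiv ℝ φ x v * g (mol (rh n k) u x) := fun k =>
    (hφ'.mul (hg.continuous.comp (hsm k).continuous)).integrable_of_hasCompactSupport
      hφ'c.mul_right
  have hJ2 : ∀ k, Integrable fun x =>
      φ x * fderiv ℝ g (mol (rh n k) u x) (mol (rh n k) G x v) := fun k =>
    (hφ.continuous.mul ((hg'.continuous.comp (hsm k).continuous).clm_apply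
      ((hsG k).continuous.clm_apply continuous_const))).integrable_of_hasCompactSupport
      hφc.mul_right
  have hzero : ∀ᶠ k in atTop, ∫ x, ((fderiv ℝ φ x v * g (mol (rh n k) u x) +
      φ x * fderiv ℝ g (mol (rh n k) u x) (mol (rh n k) G x v)) -
      (fderiv ℝ φ x v * g (u x) + φ x * fderiv ℝ g (u x) (G x v))) =
      -((∫ x, fderiv ℝ φ x v * g (u x)) + ∫ x, φ x * fderiv ℝ g (u x) (G x v)) := by
    filter_upwards [eventually_fderiv_mol hW huL hGL hφc hU hφU] with k hk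
    have i1 := integral_sub ((hJ1 k).add (hJ2 k)) (hI1.add hI2)
    have i2 := integral_add (hJ1 k) (hJ2 k)
    have i3 := integral_add hI1 hI2
    simp only [Pi.add_apply] at i1 i2 i3
    rw [i1, i2, i3]
    have hd : Differentiable ℝ fun x => g (mol (rh n k) u x) :=
      (hg.comp (hsm k)).differentiable (by simp)
    have h2 : (fun x => φ x * fderiv ℝ g (mol (rh n k) u x) (mol (rh n k) G x v)) =
        fun x => φ x * fderiv ℝ (fun x => g (mol (rh n k) u x)) x v := by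
      funext x
      by_cases hx : x ∈ tsupport φ
      · have h3 : HasFDerivAt (fun x => g (mol (rh n k) u x))
            ((fderiv ℝ g (mol (rh n k) u x)).comp (fderiv ℝ (mol (rh n k) u) x)) x :=
          ((hg.differentiable (by simp) _).hasFDerivAt).comp x
            (((hsm k).differentiable (by simp) x).hasFDerivAt)
        rw [h3.fderiv, hk x hx]
        rfl
      · rw [image_eq_zero_of_notMem_tsupport hx, zero_mul, zero_mul]
    have h4 := integral_mul_fderiv_eq_neg_fderiv_mul_of_integrable (μ := volume) (f := φ)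
      (g := fun x => g (mol (rh n k) u x)) (v := v) (hJ1 k) (h2 ▸ hJ2 k)
      ((hφ.continuous.mul (hg.continuous.comp (hsm k).continuous)).integrable_of_hasCompactSupport
        hφc.mul_right)
      (fun x _ => hφ.differentiable (by simp) x) fun x _ => hd x
    rw [h2, h4]
    ring
  have h5 := tendsto_nhds_unique (hlim.congr' hzero) tendsto_const_nhds
  linarith

theorem pf_CHN : T_CHN := by
  intro n m u G hW g hg hgc φ hφ v
  have hu' : MemLp ((ball (0 : E n) 2).indicator u) 2 volume :=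
    memLp_ind measurableSet_ball hW.memLp
  have hG' : MemLp ((ball (0 : E n) 2).indicator G) 2 volume :=
    memLp_ind measurableSet_ball hW.memLp_deriv
  have hw := (wder_of hW).indicator
  have h := chain isOpen_ball hw hu' hG' hg hgc hφ.1 hφ.2.1 hφ.2.2 v
  have h1 : (fun x => fderiv ℝ φ x v * g ((ball (0 : E n) 2).indicator u x)) =
      fun x => fderiv ℝ φ x v * g (u x) := by
    funext x
    by_cases hx : x ∈ ball (0 : E n) 2
    · rw [indicator_of_mem hx]
    · rw [fderiv_zero_of_notMem_tsupport fun h' => hx (hφ.2.2 h')]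
      simp
  have h2 : (fun x => φ x * fderiv ℝ g ((ball (0 : E n) 2).indicator u x)
      ((ball (0 : E n) 2).indicator G x v)) = fun x => φ x * fderiv ℝ g (u x) (G x v) := by
    funext x
    by_cases hx : x ∈ ball (0 : E n) 2
    · rw [indicator_of_mem hx, indicator_of_mem hx]
    · rw [image_eq_zero_of_notMem_tsupport fun h' => hx (hφ.2.2 h'), zero_mul, zero_mul]
  rw [h1, h2] at h
  exact h

end Pool.Agent.H14.RG
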