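import Pool.Agent.H87.SN.Defs

/-!
# Closed submanifolds and harmonic maps (MP_2697e3_an): definitions
-/

set_option autoImplicit false

namespace Pool.Agent.H14.RG

open MeasureTheory Metric Set Filter Topology Pool.Agent.H87.SN
open scoped ContDiff RealInnerProductSpace

/-- On the open set `U`, the set `N` is the zero set of the smooth submersion `F`. -/
structure LocDef {m c : ℕ} (N U : Set (E m)) (F : E m → E c) : Prop where
  isOpen : IsOpen U
  smooth : ContDiffOn ℝ ∞ F U
  surj : ∀ q ∈ U, Function.Surjective (fderiv ℝ F q)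
  zero : ∀ q ∈ U, (q ∈ N ↔ F q = 0)

/-- `N` is a closed (compact, boundaryless, embedded, smooth) submanifold of `R^m` of dimension
`k`: locally it is the zero set of a smooth submersion to `R^(m - k)`. -/
structure IsClosedSubmanifold {m : ℕ} (k : ℕ) (N : Set (E m)) : Prop where
  compact : IsCompact N
  loc : ∀ p ∈ N, ∃ (c : ℕ) (U : Set (E m)) (F : E m → E c), k + c = m ∧ p ∈ U ∧ LocDef N U F

/-- the vector with the coordinates `(L e_α) j` -/
noncomputable def row {n m : ℕ} (L : E n →L[ℝ] E m) (j : Fin m) : E n :=
  WithLp.toLp 2 fun α => (L (bv α)) j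

/-- `T q` is a linear map onto the tangent space of `N` at `q` which is the identity there, for
`q ∈ N`. -/
structure TanProj {m : ℕ} (N : Set (E m)) (T : E m → E m →L[ℝ] E m) : Prop where
  cont : ContinuousOn T N
  mem : ∀ q ∈ N, ∀ v, IsTangent N q (T q v)
  fix : ∀ q ∈ N, ∀ v, IsTangent N q v → T q v = v

end Pool.Agent.H14.RG
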