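import Pool.Agent.H14.RG.CHN
import Pool.Agent.H95.RG.A_CUT
import Pool.Agent.H62.RG.A_OMG
import Pool.Agent.H45.RG.RIN
import Pool.Agent.H66.RG.SFS
import Pool.Agent.H45.RG.TAE
import Pool.Agent.H82.RG.TAK
import Pool.Agent.H36.RG.TNG
import Pool.Agent.H45.RG.TPR
import Pool.Agent.H75.RG.ZER

/-!
# Closed submanifolds and harmonic maps (MP_2697e3_an): part A without hypotheses
-/

set_option autoImplicit false

namespace Pool.Agent.H14.RG

theorem tae : T_TAE := Pool.Agent.H45.RG.pf_TAE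

theorem rin : T_RIN := Pool.Agent.H45.RG.pf_RIN

theorem tak : T_TAK := Pool.Agent.H82.RG.pf_TAK rin

theorem cut : T_CUT := Pool.Agent.H95.RG.pf_CUT

theorem tpr : T_TPR := Pool.Agent.H45.RG.pf_TPR tae rin tak

theorem sfs : T_SFS := Pool.Agent.H66.RG.pf_SFS tae rin tak cut

theorem zer : T_ZER := Pool.Agent.H75.RG.pf_ZER pf_CHN

theorem tng : T_TNG := Pool.Agent.H36.RG.pf_TNG tak cut zer

theorem omg : T_OMG := Pool.Agent.H62.RG.pf_OMG tpr tng

end Pool.Agent.H14.RG
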