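import Pool.Agent.H14.RG.Defs

/-!
# Closed submanifolds and harmonic maps (MP_2697e3_an): targets of part A
-/

set_option autoImplicit false

namespace Pool.Agent.H14.RG

open MeasureTheory Metric Set Filter Topology Pool.Agent.H87.SN
open scoped ContDiff RealInnerProductSpace

/-- (TAE) tangent vectors are in the kernel of the derivative of the defining function. -/
def T_TAE : Prop :=
  ∀ (m c : ℕ) (N U : Set (E m)) (F : E m → E c), LocDef N U F → ∀ q ∈ U, ∀ v : E m,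
    IsTangent N q v → fderiv ℝ F q v = 0

/-- (RIN) the right inverse of the derivative of a submersion. -/
def T_RIN : Prop :=
  ∀ (m c : ℕ) (U : Set (E m)) (F : E m → E c), IsOpen U → ContDiffOn ℝ ∞ F U →
    (∀ q ∈ U, Function.Surjective (fderiv ℝ F q)) →
    ∃ R : E m → E c →L[ℝ] E m, ContDiffOn ℝ ∞ R U ∧
      ∀ q ∈ U, (∀ y, fderiv ℝ F q (R q y) = y) ∧
        ∀ y v, fderiv ℝ F q v = 0 → ⟪R q y, v⟫ = 0

/-- (TAK) the vectors in the kernel are tangent. -/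
def T_TAK : Prop :=
  ∀ (m c : ℕ) (N U : Set (E m)) (F : E m → E c), LocDef N U F → ∀ q ∈ N, q ∈ U → ∀ v : E m,
    fderiv ℝ F q v = 0 → IsTangent N q v

/-- (TPR) a continuous projection onto the tangent spaces. -/
def T_TPR : Prop :=
  ∀ (m k : ℕ) (N : Set (E m)), IsClosedSubmanifold k N → ∃ T, TanProj N T

/-- (CUT) a smooth function on a neighbourhood of a point is extended. -/
def T_CUT : Prop :=
  ∀ (m : ℕ) (G : Type) [NormedAddCommGroup G] [NormedSpace ℝ G] (U : Set (E m)) (F : E m → G),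
    IsOpen U → ContDiffOn ℝ ∞ F U → ∀ p ∈ U, ∃ (V : Set (E m)) (g : E m → G) (χ : E m → ℝ),
      IsOpen V ∧ p ∈ V ∧ V ⊆ U ∧ ContDiff ℝ ∞ g ∧ HasCompactSupport g ∧ (∀ q ∈ V, g q = F q) ∧
      (∀ q ∈ U, g q = χ q • F q) ∧ ∀ q, q ∉ U → g q = 0

/-- (SFS) near each point of the submanifold the second fundamental form is given by a smooth
function. -/
def T_SFS : Prop :=
  ∀ (m k : ℕ) (N : Set (E m)) (A : E m → E m →L[ℝ] E m →L[ℝ] E m), IsClosedSubmanifold k N →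
    IsSFF N A → ∀ p ∈ N, ∃ (V : Set (E m)) (B : E m → E m →L[ℝ] E m →L[ℝ] E m),
      IsOpen V ∧ p ∈ V ∧ ContDiff ℝ ∞ B ∧
      ∀ q ∈ N, q ∈ V → ∀ v, IsTangent N q v → A q v v = B q v v

/-- (CHN) the chain rule. -/
def T_CHN : Prop :=
  ∀ (n m : ℕ) (u : E n → E m) (G : E n → E n →L[ℝ] E m), IsW12 u G → ∀ g : E m → ℝ,
    ContDiff ℝ ∞ g → HasCompactSupport g → ∀ φ : E n → ℝ, IsTest φ → ∀ v : E n,
      ∫ x, fderiv ℝ φ x v * g (u x) = -∫ x, φ x * fderiv ℝ g (u x) (G x v)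

/-- (ZER) a function which vanishes on `N`. -/
def T_ZER : Prop :=
  ∀ (n m c : ℕ) (N : Set (E m)) (u : E n → E m) (G : E n → E n →L[ℝ] E m), IsW12 u G →
    (∀ᵐ x ∂(volume.restrict (ball (0 : E n) 2)), u x ∈ N) → ∀ g : E m → E c, ContDiff ℝ ∞ g →
    HasCompactSupport g → (∀ q ∈ N, g q = 0) →
    ∀ᵐ x ∂(volume.restrict (ball (0 : E n) 2)), ∀ v, fderiv ℝ g (u x) (G x v) = 0

/-- (TNG) the derivatives are tangent. -/
def T_TNG : Prop :=
  ∀ (n m k : ℕ) (N : Set (E m)) (u : E n → E m) (G : E n → E n →L[ℝ] E m),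
    IsClosedSubmanifold k N → IsW12 u G →
    (∀ᵐ x ∂(volume.restrict (ball (0 : E n) 2)), u x ∈ N) →
    ∀ᵐ x ∂(volume.restrict (ball (0 : E n) 2)), ∀ v, IsTangent N (u x) (G x v)

/-- (OMG) the antisymmetric form. -/
def T_OMG : Prop :=
  ∀ (m k : ℕ) (N : Set (E m)) (A : E m → E m →L[ℝ] E m →L[ℝ] E m), IsClosedSubmanifold k N →
    IsSFF N A → ∃ C : ℝ, 0 ≤ C ∧ (∀ q ∈ N, ‖A q‖ ≤ C) ∧
    ∀ (n : ℕ) (u : E n → E m) (G : E n → E n →L[ℝ] E m), IsW12 u G →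
    (∀ᵐ x ∂(volume.restrict (ball (0 : E n) 2)), u x ∈ N) →
    ∃ Om : Fin m → Fin m → E n → E n,
      (∀ i j, AEStronglyMeasurable (Om i j) (volume.restrict (ball (0 : E n) 2))) ∧
      (∀ i j x, Om j i x = -Om i j x) ∧ (∀ i j x, ‖Om i j x‖ ≤ C * ‖G x‖) ∧
      ∀ᵐ x ∂(volume.restrict (ball (0 : E n) 2)), ∀ i,
        (∑ α, A (u x) (G x (bv α)) (G x (bv α))) i = ∑ j, ⟪Om i j x, row (G x) j⟫

end Pool.Agent.H14.RG
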